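import Pool.Agent.H307R2.LU

/-!
# The functions `g_ℓ(n) n^(-α)`, `ζ(α) = 0`, `ℓ` prime
-/

set_option autoImplicit false

namespace Pool.Agent.N915.OP

open Finset Filter Topology Complex MeasureTheory

/-- `n^(-α)` for `ℓ ∤ n`, `(1 - ℓ) n^(-α)` for `ℓ ∣ n` -/
noncomputable def F (l : ℕ) (α : ℂ) (n : ℕ) : ℂ :=
  (if l ∣ n then 1 - (l : ℂ) else 1) * (n : ℂ) ^ (-α)

lemma F_one (l : ℕ) (hl : l.Prime) (α : ℂ) : F l α 1 = 1 := by
  unfold F
  rw [if_neg]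
  · simp
  · intro h
    exact hl.one_lt.ne' (Nat.dvd_one.1 h)

lemma F_mul (l : ℕ) (hl : l.Prime) (α : ℂ) (m n : ℕ) (hm : ¬ l ∣ m) :
    F l α (m * n) = F l α m * F l α n := by
  unfold F
  rw [Nat.cast_mul, Complex.natCast_mul_natCast_cpow, if_neg hm]
  by_cases h : l ∣ n
  · rw [if_pos h, if_pos (dvd_mul_of_dvd_right h m)]
    ring
  · rw [if_neg h, if_neg]
    · ring
    · intro h2
      rcases hl.dvd_mul.1 h2 with h3 | h3
      · exact hm h3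
      · exact h h3

lemma pow_cpow (α : ℂ) (p k : ℕ) : (((p ^ k : ℕ) : ℂ)) ^ (-α) = ((p : ℂ) ^ (-α)) ^ k := by
  induction k with
  | zero => simp
  | succ k ih =>
    rw [pow_succ, Nat.cast_mul, Complex.natCast_mul_natCast_cpow, ih, pow_succ]

lemma F_pow_self (l : ℕ) (α : ℂ) (k : ℕ) :
    F l α (l ^ (k + 1)) = (1 - (l : ℂ)) * ((l : ℂ) ^ (-α)) ^ (k + 1) := by
  unfold F
  rw [if_pos (dvd_pow_self l (Nat.succ_ne_zero k)), pow_cpow]

lemma F_geom (l : ℕ) (α : ℂ) (k : ℕ) :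
    F l α (l ^ (k + 2)) = (l : ℂ) ^ (-α) * F l α (l ^ (k + 1)) := by
  rw [F_pow_self, F_pow_self]
  ring

lemma F_pow_ne (l : ℕ) (hl : l.Prime) (α : ℂ) (p : ℕ) (hp : p.Prime) (hne : p ≠ l) (k : ℕ) :
    F l α (p ^ k) = ((p : ℂ) ^ (-α)) ^ k := by
  unfold F
  rw [if_neg, pow_cpow, one_mul]
  intro h
  exact hne ((Nat.prime_dvd_prime_iff_eq hl hp).1 (hl.dvd_of_dvd_pow h)).symm

/-- the local sums do not vanish -/
theorem F_local (l : ℕ) (hl : l.Prime) (α : ℂ) (h0 : 0 < α.re) (h1 : α.re < 1) (p : ℕ)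
    (hp : p.Prime) :
    ∃ L : ℂ, L ≠ 0 ∧ Tendsto (fun K : ℕ => ∑ k ∈ range K, F l α (p ^ k)) atTop (𝓝 L) := by
  set q : ℂ := (p : ℂ) ^ (-α) with hq
  have hqn : ‖q‖ = (p : ℝ) ^ (-α.re) := by
    rw [hq, Complex.norm_natCast_cpow_of_pos hp.pos]
    simp
  have hp1 : (1 : ℝ) < p := by exact_mod_cast hp.one_lt
  have hq1 : ‖q‖ < 1 := by
    rw [hqn]
    exact Real.rpow_lt_one_of_one_lt_of_neg hp1 (by linarith)
  have hne : 1 - q ≠ 0 := by
    intro h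
    have : q = 1 := by linear_combination -h
    rw [this] at hq1
    simp at hq1
  have hgeo : Tendsto (fun K : ℕ => ∑ k ∈ range K, q ^ k) atTop (𝓝 (1 - q)⁻¹) :=
    (hasSum_geometric_of_norm_lt_one hq1).tendsto_sum_nat
  by_cases hpl : p = l
  · -- `1 + (1 - ℓ) (1/(1-q) - 1) = (1 - ℓ q)/(1 - q)`
    refine ⟨(1 - (l : ℂ)) * (1 - q)⁻¹ + l, ?_, ?_⟩
    · intro h
      have h3 : (l : ℂ) * q = 1 := by
        field_simp at h
        linear_combination -h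
      have h4 : ‖(l : ℂ) * q‖ = 1 := by rw [h3]; simp
      rw [norm_mul, hqn, hpl, Complex.norm_natCast] at h4
      have hl1 : (1 : ℝ) < l := by exact_mod_cast hl.one_lt
      have h6 : (l : ℝ) * (l : ℝ) ^ (-α.re) = (l : ℝ) ^ (1 - α.re) := by
        rw [sub_eq_add_neg, Real.rpow_add (by linarith), Real.rpow_one]
      rw [h6] at h4
      have h7 : (1 : ℝ) < (l : ℝ) ^ (1 - α.re) := Real.one_lt_rpow hl1 (by linarith)
      linarith
    · have h3 := (hgeo.const_mul (1 - (l : ℂ))).add_const (l : ℂ)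
      refine h3.congr' ?_
      filter_upwards [eventually_ge_atTop 1] with K hK
      obtain ⟨K, rfl⟩ : ∃ J, K = J + 1 := ⟨K - 1, by omega⟩
      rw [Finset.sum_range_succ', Finset.sum_range_succ']
      have h4 : ∀ k ∈ range K, F l α (p ^ (k + 1)) = (1 - (l : ℂ)) * q ^ (k + 1) := by
        intro k _
        rw [hpl, F_pow_self, hq, hpl]
      rw [Finset.sum_congr rfl h4, ← Finset.mul_sum, pow_zero, pow_zero, F_one l hl]
      ring
  · refine ⟨(1 - q)⁻¹, inv_ne_zero hne, ?_⟩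
    refine hgeo.congr fun K => ?_
    apply Finset.sum_congr rfl
    intro k _
    rw [F_pow_ne l hl α p hp hpl]

/-- partial sums of `n^(-α)` -/
noncomputable def A (α : ℂ) (N : ℕ) : ℂ := ∑ n ∈ Icc 1 N, (n : ℂ) ^ (-α)

lemma A_eq (α : ℂ) (h0 : 0 < α.re) (h1 : α ≠ 1) (hz : riemannZeta α = 0) (N : ℕ) (hN : 1 ≤ N) :
    ‖A α N - (N : ℂ) ^ (1 - α) / (1 - α)‖ ≤ ‖α‖ / α.re * (N : ℝ) ^ (-α.re) := by
  have h := Pool.Agent.H307R2.zeta_eq hN h0 h1
  rw [hz] at h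
  have hT := Pool.Agent.H307R2.TM_norm_le hN (E := Pool.Agent.H307R2.Ez) (B := 1)
    Pool.Agent.H307R2.Ez_norm_le h0
  have e : A α N - (N : ℂ) ^ (1 - α) / (1 - α) =
      -(α * Pool.Agent.H307R2.TM N Pool.Agent.H307R2.Ez α) := by
    have e2 : (N : ℂ) ^ (1 - α) / (1 - α) = -((N : ℂ) ^ (1 - α) / (α - 1)) := by
      rw [← neg_sub α 1, div_neg]
    rw [e2]
    unfold A
    linear_combination -h
  rw [e, norm_neg, norm_mul]
  calc ‖α‖ * ‖Pool.Agent.H307R2.TM N Pool.Agent.H307R2.Ez α‖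
      ≤ ‖α‖ * (1 * ((N : ℝ) ^ (-α.re) / α.re)) := by gcongr
    _ = _ := by ring

lemma sum_F (l : ℕ) (hl : l.Prime) (α : ℂ) (N : ℕ) :
    ∑ n ∈ Icc 1 N, F l α n = A α N - (l : ℂ) ^ (1 - α) * A α (N / l) := by
  have hl0 : (l : ℂ) ≠ 0 := by exact_mod_cast hl.ne_zero
  have h1 : ∀ n ∈ Icc 1 N, F l α n = (n : ℂ) ^ (-α) - (if l ∣ n then (l : ℂ) * (n : ℂ) ^ (-α) else 0) := by
    intro n _
    unfold F
    split_ifs <;> ring
  rw [Finset.sum_congr rfl h1, Finset.sum_sub_distrib]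
  congr 1
  rw [← Finset.sum_filter]
  have h2 : (Icc 1 N).filter (fun n => l ∣ n) = (Icc 1 (N / l)).image (fun m => l * m) := by
    ext n
    simp only [mem_filter, mem_Icc, mem_image]
    constructor
    · rintro ⟨⟨ha, hb⟩, m, rfl⟩
      refine ⟨m, ⟨?_, ?_⟩, rfl⟩
      · by_contra h
        have : m = 0 := by omega
        subst this
        omega
      · exact (Nat.le_div_iff_mul_le hl.pos).2 (by linarith [mul_comm l m])
    · rintro ⟨m, ⟨ha, hb⟩, rfl⟩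
      refine ⟨⟨?_, ?_⟩, dvd_mul_right _ _⟩
      · exact Nat.mul_pos hl.pos ha
      · have := (Nat.le_div_iff_mul_le hl.pos).1 hb
        linarith [mul_comm l m]
  rw [h2, Finset.sum_image (fun a _ b _ hab => Nat.eq_of_mul_eq_mul_left hl.pos hab)]
  unfold A
  rw [Finset.mul_sum]
  apply Finset.sum_congr rfl
  intro m _
  rw [Nat.cast_mul, Complex.natCast_mul_natCast_cpow, sub_eq_add_neg, Complex.cpow_add _ _ hl0,
    Complex.cpow_one]
  ring

/-- `|a^(1-α) - b^(1-α)| ≤ |1-α| (a-b) b^(-σ)` for `0 < b ≤ a` -/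
lemma cpow_diff (α : ℂ) (h0 : 0 < α.re) (h1 : α ≠ 1) (a b : ℕ) (hb : 1 ≤ b) (hab : b ≤ a) :
    ‖(a : ℂ) ^ (1 - α) - (b : ℂ) ^ (1 - α)‖ ≤ ‖1 - α‖ * ((a - b : ℝ) * (b : ℝ) ^ (-α.re)) := by
  have hb0 : (0 : ℝ) < b := by exact_mod_cast hb
  have hab' : (b : ℝ) ≤ a := by exact_mod_cast hab
  have hα : 1 - α ≠ 0 := sub_ne_zero.2 (Ne.symm h1)
  have hi : (∫ x in (b : ℝ)..(a : ℝ), (x : ℂ) ^ (-α)) =
      ((a : ℂ) ^ (1 - α) - (b : ℂ) ^ (1 - α)) / (1 - α) := by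
    rw [integral_cpow]
    · rw [show -α + 1 = 1 - α by ring]
      push_cast
      rfl
    · right
      refine ⟨fun h => h1 ?_, ?_⟩
      · linear_combination -h
      · rw [Set.uIcc_of_le hab']
        intro h
        linarith [h.1]
  have h2 : ‖∫ x in (b : ℝ)..(a : ℝ), (x : ℂ) ^ (-α)‖ ≤ (b : ℝ) ^ (-α.re) * |(a : ℝ) - b| := by
    apply intervalIntegral.norm_integral_le_of_norm_le_const
    intro x hx
    rw [Set.uIoc_of_le hab'] at hx
    have hx0 : 0 < x := hb0.trans hx.1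
    rw [Complex.norm_cpow_eq_rpow_re_of_pos hx0]
    simp only [neg_re]
    exact Real.rpow_le_rpow_of_nonpos hb0 hx.1.le (by linarith)
  rw [hi, norm_div, div_le_iff₀ (norm_pos_iff.2 hα), abs_of_nonneg (by linarith)] at h2
  linarith [h2]

/-- the bound for the partial sums -/
theorem partial_bound (l : ℕ) (hl : l.Prime) (α : ℂ) (h0 : 0 < α.re) (h1 : α.re < 1)
    (hz : riemannZeta α = 0) : ∃ C : ℝ, 0 < C ∧ ∀ N : ℕ, 1 ≤ N →
      ‖∑ n ∈ Icc 1 N, F l α n‖ ≤ C * (N : ℝ) ^ (-α.re) := by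
  have hne : α ≠ 1 := by
    rintro rfl
    simp at h1
  have hα : 1 - α ≠ 0 := sub_ne_zero.2 (Ne.symm hne)
  have hl1 : (1 : ℝ) ≤ l := by exact_mod_cast hl.one_lt.le
  have hl0 : (0 : ℝ) < l := by linarith
  set σ := α.re with hσ
  set D : ℝ := ‖α‖ / σ with hD
  have hD0 : 0 ≤ D := div_nonneg (norm_nonneg _) h0.le
  have h2σ : (1 : ℝ) ≤ 2 ^ σ := Real.one_le_rpow (by norm_num) h0.le
  -- constants
  refine ⟨D + l * (D * 2 ^ σ * l ^ σ) + l * 2 ^ σ + (l : ℝ) ^ σ * l * l + 1, by positivity, ?_⟩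
  intro N hN
  have hN0 : (0 : ℝ) < N := by exact_mod_cast hN
  have hNσ : 0 < (N : ℝ) ^ (-σ) := Real.rpow_pos_of_pos hN0 _
  rcases Nat.lt_or_ge N l with hlt | hge
  · -- small N
    have hb : ‖∑ n ∈ Icc 1 N, F l α n‖ ≤ l * l := by
      refine (norm_sum_le _ _).trans ?_
      have hF : ∀ n ∈ Icc 1 N, ‖F l α n‖ ≤ (l : ℝ) := by
        intro n hn
        rw [mem_Icc] at hn
        unfold F
        have hnl : ¬ l ∣ n := fun h => by
          have := Nat.le_of_dvd (by omega) h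
          omega
        rw [if_neg hnl, one_mul, Complex.norm_natCast_cpow_of_pos (by omega)]
        have : (n : ℝ) ^ (-α).re ≤ 1 := by
          apply Real.rpow_le_one_of_one_le_of_nonpos
          · exact_mod_cast hn.1
          · simp; linarith
        linarith
      refine (Finset.sum_le_card_nsmul _ _ _ hF).trans ?_
      rw [nsmul_eq_mul, Nat.card_Icc]
      have : ((N + 1 - 1 : ℕ) : ℝ) ≤ l := by
        have : N + 1 - 1 ≤ l := by omega
        exact_mod_cast this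
      gcongr
    have hlow : (l : ℝ) ^ (-σ) ≤ (N : ℝ) ^ (-σ) := by
      apply Real.rpow_le_rpow_of_nonpos hN0 _ (by linarith)
      exact_mod_cast hlt.le
    have e1 : (l : ℝ) ^ σ * (l : ℝ) ^ (-σ) = 1 := by
      rw [← Real.rpow_add hl0]; simp
    have h3 : (l : ℝ) * l ≤ ((l : ℝ) ^ σ * l * l) * (N : ℝ) ^ (-σ) := by
      calc (l : ℝ) * l = ((l : ℝ) ^ σ * (l : ℝ) ^ (-σ)) * (l * l) := by rw [e1, one_mul]
        _ = ((l : ℝ) ^ σ * l * l) * (l : ℝ) ^ (-σ) := by ring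
        _ ≤ _ := by gcongr
    calc ‖∑ n ∈ Icc 1 N, F l α n‖ ≤ l * l := hb
      _ ≤ ((l : ℝ) ^ σ * l * l) * (N : ℝ) ^ (-σ) := h3
      _ ≤ _ := by
        apply mul_le_mul_of_nonneg_right _ hNσ.le
        have p1 : 0 ≤ l * (D * 2 ^ σ * (l : ℝ) ^ σ) := by positivity
        have p2 : 0 ≤ (l : ℝ) * 2 ^ σ := by positivity
        linarith
  · -- N ≥ l
    set M : ℕ := N / l with hM
    have hM1 : 1 ≤ M := (Nat.one_le_div_iff hl.pos).2 hge
    have hM0 : (0 : ℝ) < M := by exact_mod_cast hM1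
    have hlM : l * M ≤ N := Nat.mul_div_le N l
    have hNlM : N < l * M + l := by
      have := Nat.lt_mul_div_succ N hl.pos
      rw [← hM] at this
      linarith [this, Nat.mul_succ l M]
    have hlM1 : 1 ≤ l * M := Nat.mul_pos hl.pos hM1
    have hN2 : (N : ℝ) / 2 ≤ l * M := by
      have h5 : (N : ℝ) < l * M + l := by exact_mod_cast hNlM
      have h6 : (l : ℝ) ≤ l * M := by
        have : (1 : ℝ) ≤ M := by exact_mod_cast hM1
        nlinarith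
      linarith
    have hhalf : ((l * M : ℕ) : ℝ) ^ (-σ) ≤ 2 ^ σ * (N : ℝ) ^ (-σ) := by
      calc ((l * M : ℕ) : ℝ) ^ (-σ) ≤ ((N : ℝ) / 2) ^ (-σ) := by
            apply Real.rpow_le_rpow_of_nonpos (by linarith) _ (by linarith)
            push_cast
            exact hN2
        _ = 2 ^ σ * (N : ℝ) ^ (-σ) := by
            rw [Real.div_rpow hN0.le two_pos.le, Real.rpow_neg two_pos.le, div_inv_eq_mul, mul_comm]
    rw [sum_F l hl α N]
    have a1 := A_eq α h0 hne hz N hN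
    have a2 := A_eq α h0 hne hz M hM1
    have a3 := cpow_diff α h0 hne N (l * M) hlM1 hlM
    -- decomposition
    have e3 : (l : ℂ) ^ (1 - α) * ((M : ℂ) ^ (1 - α) / (1 - α)) =
        ((l * M : ℕ) : ℂ) ^ (1 - α) / (1 - α) := by
      rw [Nat.cast_mul, Complex.natCast_mul_natCast_cpow]
      ring
    have e4 : A α N - (l : ℂ) ^ (1 - α) * A α M =
        (A α N - (N : ℂ) ^ (1 - α) / (1 - α)) -
        (l : ℂ) ^ (1 - α) * (A α M - (M : ℂ) ^ (1 - α) / (1 - α)) +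
        ((N : ℂ) ^ (1 - α) - ((l * M : ℕ) : ℂ) ^ (1 - α)) / (1 - α) := by
      rw [mul_sub, e3]
      ring
    have hlnorm : ‖(l : ℂ) ^ (1 - α)‖ ≤ l := by
      rw [Complex.norm_natCast_cpow_of_pos hl.pos]
      calc (l : ℝ) ^ (1 - α).re ≤ (l : ℝ) ^ (1 : ℝ) := by
            apply Real.rpow_le_rpow_of_exponent_le hl1
            simp; linarith
        _ = l := Real.rpow_one _
    have b2 : (M : ℝ) ^ (-σ) ≤ 2 ^ σ * (l : ℝ) ^ σ * (N : ℝ) ^ (-σ) := by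
      have e5 : (M : ℝ) ^ (-σ) = (l : ℝ) ^ σ * ((l * M : ℕ) : ℝ) ^ (-σ) := by
        push_cast
        rw [Real.mul_rpow hl0.le hM0.le, ← mul_assoc, ← Real.rpow_add hl0]
        simp
      rw [e5]
      calc (l : ℝ) ^ σ * ((l * M : ℕ) : ℝ) ^ (-σ) ≤ (l : ℝ) ^ σ * (2 ^ σ * (N : ℝ) ^ (-σ)) := by
            gcongr
        _ = _ := by ring
    have b3 : ‖((N : ℂ) ^ (1 - α) - ((l * M : ℕ) : ℂ) ^ (1 - α)) / (1 - α)‖ ≤
        l * 2 ^ σ * (N : ℝ) ^ (-σ) := by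
      rw [norm_div, div_le_iff₀ (norm_pos_iff.2 hα)]
      refine a3.trans ?_
      have h7 : (N : ℝ) - ((l * M : ℕ) : ℝ) ≤ l := by
        have h5 : (N : ℝ) < l * M + l := by exact_mod_cast hNlM
        push_cast
        linarith
      have h8 : (0 : ℝ) ≤ (N : ℝ) - ((l * M : ℕ) : ℝ) := by
        have : ((l * M : ℕ) : ℝ) ≤ N := by exact_mod_cast hlM
        linarith
      calc ‖1 - α‖ * (((N : ℝ) - ((l * M : ℕ) : ℝ)) * ((l * M : ℕ) : ℝ) ^ (-σ))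
          ≤ ‖1 - α‖ * (l * (2 ^ σ * (N : ℝ) ^ (-σ))) := by
            gcongr
        _ = _ := by ring
    rw [e4]
    refine (norm_add_le _ _).trans ?_
    refine (add_le_add ((norm_sub_le _ _).trans (add_le_add a1 (le_of_eq (norm_mul _ _)))) b3).trans ?_
    have c1 : ‖(l : ℂ) ^ (1 - α)‖ * ‖A α M - (M : ℂ) ^ (1 - α) / (1 - α)‖ ≤
        l * (D * 2 ^ σ * (l : ℝ) ^ σ) * (N : ℝ) ^ (-σ) := by
      calc ‖(l : ℂ) ^ (1 - α)‖ * ‖A α M - (M : ℂ) ^ (1 - α) / (1 - α)‖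
          ≤ l * (D * (M : ℝ) ^ (-σ)) := by gcongr
        _ ≤ l * (D * (2 ^ σ * (l : ℝ) ^ σ * (N : ℝ) ^ (-σ))) := by gcongr
        _ = _ := by ring
    have p3 : 0 ≤ ((l : ℝ) ^ σ * l * l + 1) * (N : ℝ) ^ (-σ) := by positivity
    nlinarith [c1, p3]

end Pool.Agent.N915.OP
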