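import Pool.Agent.N408.CMO.Final
import Pool.Agent.N915.OP.Zero

/-!
# Completely multiplicative away from one prime: the two worlds together
-/

set_option autoImplicit false

namespace Pool.Agent.N915.OP

open Finset Filter Topology Complex

/-- the conclusion for the prime `l` -/
def Concl (l : ℕ) : Prop := ∃ f : ℕ → ℂ, f 1 = 1 ∧
  (∀ m n : ℕ, 1 ≤ m → 1 ≤ n → ¬ l ∣ m → f (m * n) = f m * f n) ∧
  (∃ t : ℂ, ∀ k : ℕ, f (l ^ (k + 2)) = t * f (l ^ (k + 1))) ∧
  (∀ p : ℕ, p.Prime → ∃ L : ℂ, L ≠ 0 ∧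
    Tendsto (fun K : ℕ => ∑ k ∈ range K, f (p ^ k)) atTop (𝓝 L)) ∧
  ∃ c C : ℝ, 0 < c ∧ 0 < C ∧
    ∀ N : ℕ, 1 ≤ N → ‖∑ n ∈ Icc 1 N, f n‖ ≤ C * (N : ℝ) ^ (-(1 / 2 : ℝ) - c)

/-- a completely multiplicative function with small partial sums has nonzero local sums -/
lemma local_of (f : ℕ → ℂ) (h1 : f 1 = 1)
    (hmul : ∀ m n : ℕ, 0 < m → 0 < n → f (m * n) = f m * f n) (c C : ℝ) (hc : 0 < c)
    (hb : ∀ N : ℕ, 1 ≤ N → ‖∑ n ∈ Icc 1 N, f n‖ ≤ C * (N : ℝ) ^ (-(1 / 2 : ℝ) - c))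
    (p : ℕ) (hp : p.Prime) :
    ∃ L : ℂ, L ≠ 0 ∧ Tendsto (fun K : ℕ => ∑ k ∈ range K, f (p ^ k)) atTop (𝓝 L) := by
  have hpow : ∀ k : ℕ, f (p ^ k) = f p ^ k := by
    intro k
    induction k with
    | zero => simpa using h1
    | succ k ih => rw [pow_succ, hmul _ _ (pow_pos hp.pos k) hp.pos, ih, pow_succ]
  -- `f n → 0`
  have hS : Tendsto (fun N : ℕ => ∑ n ∈ Icc 1 N, f n) atTop (𝓝 0) := by
    have h2 : Tendsto (fun N : ℕ => C * (N : ℝ) ^ (-(1 / 2 : ℝ) - c)) atTop (𝓝 0) := by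
      have h3 : Tendsto (fun x : ℝ => x ^ (-(1 / 2 + c))) atTop (𝓝 0) :=
        tendsto_rpow_neg_atTop (by positivity)
      have h4 := (h3.comp tendsto_natCast_atTop_atTop).const_mul C
      rw [mul_zero] at h4
      refine h4.congr fun N => ?_
      simp only [Function.comp]
      congr 2
      ring
    rw [tendsto_zero_iff_norm_tendsto_zero]
    refine squeeze_zero' (Eventually.of_forall fun N => norm_nonneg _) ?_ h2
    filter_upwards [eventually_ge_atTop 1] with N hN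
    exact hb N hN
  have hf : Tendsto (fun N : ℕ => f (N + 1)) atTop (𝓝 0) := by
    have h2 := (hS.comp (tendsto_add_atTop_nat 1)).sub hS
    rw [sub_zero] at h2
    refine h2.congr fun N => ?_
    simp only [Function.comp]
    rw [Finset.sum_Icc_succ_top (by omega)]
    ring
  have hf' : Tendsto f atTop (𝓝 0) := (tendsto_add_atTop_iff_nat 1).1 hf
  have hk : Tendsto (fun k : ℕ => f p ^ k) atTop (𝓝 0) := by
    have h2 := hf'.comp (tendsto_pow_atTop_atTop_of_one_lt hp.one_lt)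
    refine h2.congr fun k => ?_
    simp only [Function.comp]
    exact hpow k
  have hk' : Tendsto (fun k : ℕ => ‖f p‖ ^ k) atTop (𝓝 0) := by
    have h2 := hk.norm
    rw [norm_zero] at h2
    refine h2.congr fun k => ?_
    rw [norm_pow]
  have hlt : ‖f p‖ < 1 := by
    have := tendsto_pow_atTop_nhds_zero_iff.1 hk'
    rwa [abs_of_nonneg (norm_nonneg _)] at this
  have hne : 1 - f p ≠ 0 := by
    intro h
    have h3 : f p = 1 := by linear_combination -h
    rw [h3] at hlt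
    simp at hlt
  refine ⟨(1 - f p)⁻¹, inv_ne_zero hne, ?_⟩
  refine ((hasSum_geometric_of_norm_lt_one hlt).tendsto_sum_nat).congr fun K => ?_
  exact Finset.sum_congr rfl fun k _ => (hpow k).symm

theorem concl (l : ℕ) (hl : l.Prime) : Concl l := by
  obtain ⟨κ, hκ, hmain⟩ := Pool.Agent.N408.CMO.Final.main
  by_cases hQ : Pool.Agent.N408.CMO.QRH κ
  · obtain ⟨f, h1, hmul, c, C, hc, hC, hb⟩ := hmain hQ
    refine ⟨f, h1, fun m n hm hn _ => hmul m n hm hn, ⟨f l, fun k => ?_⟩,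
      fun p hp => local_of f h1 hmul c C hc hb p hp, c, C, hc, hC, hb⟩
    rw [show l ^ (k + 2) = l * l ^ (k + 1) by ring, hmul _ _ hl.pos (pow_pos hl.pos _)]
  · unfold Pool.Agent.N408.CMO.QRH at hQ
    push Not at hQ
    obtain ⟨α, ha, hne, hz⟩ := hQ
    have h1 : α.re < 1 := by
      by_contra h
      exact riemannZeta_ne_zero_of_one_le_re (not_lt.1 h) hz
    have h0 : 0 < α.re := by linarith
    obtain ⟨C, hC, hb⟩ := partial_bound l hl α h0 h1 hz
    refine ⟨F l α, F_one l hl α, fun m n _ _ hm => F_mul l hl α m n hm,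
      ⟨(l : ℂ) ^ (-α), fun k => F_geom l α k⟩, fun p hp => F_local l hl α h0 h1 p hp,
      α.re - 1 / 2, C, by linarith, hC, fun N hN => ?_⟩
    have := hb N hN
    rwa [show (-(1 / 2 : ℝ) - (α.re - 1 / 2)) = -α.re by ring]

end Pool.Agent.N915.OP
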